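import Pool.Agent.Lib_helper33.RC_Res
import Pool.Agent.Lib_helper4.LDK.Defs

/-! # LDK, block RESB: the iteration `res_seq` with bounds, in the normalisation `(1 + x R)⁻¹` -/

set_option autoImplicit false

open scoped BigOperators ComplexOrder Kronecker MatrixOrder Topology
open MeasureTheory Set Matrix Filter

namespace Pool.Agent.LDK

open Pool.Agent.RC Pool.Agent.RC.AR Pool.Agent.RC.RES

variable {ι κ : Type} [Fintype ι] [DecidableEq ι] [Fintype κ] [DecidableEq κ]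

/-- `a0 ≤ M ≤ a1` -/
def resbBd (a0 a1 : ℝ) (M : Matrix ι ι ℂ) : Prop :=
  (M - (a0 : ℂ) • (1 : Matrix ι ι ℂ)).PosSemidef ∧ ((a1 : ℂ) • (1 : Matrix ι ι ℂ) - M).PosSemidef

lemma resb_conj {a0 a1 : ℝ} {M : Matrix ι ι ℂ} (h : resbBd a0 a1 M) {Q : Matrix ι κ ℂ}
    (hQ : Qᴴ * Q = 1) : resbBd a0 a1 (Qᴴ * M * Q) := by
  have e : ∀ c : ℂ, Qᴴ * (c • (1 : Matrix ι ι ℂ)) * Q = c • (1 : Matrix κ κ ℂ) := by
    intro c
    rw [Matrix.mul_smul, Matrix.smul_mul, Matrix.mul_one, hQ]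
  constructor
  · have := h.1.conjTranspose_mul_mul_same Q
    rw [Matrix.mul_sub, Matrix.sub_mul, e] at this
    exact this
  · have := h.2.conjTranspose_mul_mul_same Q
    rw [Matrix.mul_sub, Matrix.sub_mul, e] at this
    exact this

omit [Fintype κ] in
lemma resb_dg {a0 a1 : ℝ} {c : κ → ℝ} : resbBd a0 a1 (dg c) ↔ ∀ i, c i ∈ Icc a0 a1 := by
  have e : ∀ x : ℝ, ((x : ℂ) • (1 : Matrix κ κ ℂ)) = Matrix.diagonal fun _ => (x : ℂ) := by
    intro x
    rw [← diagonal_one, ← diagonal_smul]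
    congr 1
    ext i
    simp
  unfold resbBd dg
  rw [e, e, diagonal_sub, diagonal_sub, posSemidef_diagonal_iff, posSemidef_diagonal_iff]
  constructor
  · rintro ⟨h1, h2⟩ i
    have h3 := h1 i
    have h4 := h2 i
    rw [← Complex.ofReal_sub] at h3 h4
    have h5 : 0 ≤ c i - a0 := by exact_mod_cast h3
    have h6 : 0 ≤ a1 - c i := by exact_mod_cast h4
    exact ⟨by linarith, by linarith⟩
  · intro h
    refine ⟨fun i => ?_, fun i => ?_⟩
    · rw [← Complex.ofReal_sub]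
      have : 0 ≤ c i - a0 := by linarith [(h i).1]
      exact_mod_cast this
    · rw [← Complex.ofReal_sub]
      have : 0 ≤ a1 - c i := by linarith [(h i).2]
      exact_mod_cast this

lemma resb_fromBlocks {a0 a1 : ℝ} {A : Matrix ι ι ℂ} {B : Matrix κ κ ℂ} (hA : resbBd a0 a1 A)
    (hB : resbBd a0 a1 B) : resbBd a0 a1 (fromBlocks A 0 0 B) := by
  have key : ∀ {X : Matrix ι ι ℂ} {Y : Matrix κ κ ℂ}, X.PosSemidef → Y.PosSemidef →
      (fromBlocks X 0 0 Y).PosSemidef := by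
    intro X Y hX hY
    refine PosSemidef.of_dotProduct_mulVec_nonneg ?_ ?_
    · rw [isHermitian_fromBlocks_iff]
      exact ⟨hX.isHermitian, by simp, by simp, hY.isHermitian⟩
    · intro x
      have e : x = Sum.elim (x ∘ Sum.inl) (x ∘ Sum.inr) := (Sum.elim_comp_inl_inr x).symm
      have est : star (Sum.elim (x ∘ Sum.inl) (x ∘ Sum.inr)) =
          Sum.elim (star (x ∘ Sum.inl)) (star (x ∘ Sum.inr)) := by
        ext k
        rcases k with k | k <;> simp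
      rw [e, fromBlocks_mulVec, est, sumElim_dotProduct_sumElim]
      simp only [Sum.elim_comp_inl, Sum.elim_comp_inr, Matrix.zero_mulVec, add_zero, zero_add]
      exact add_nonneg (hX.dotProduct_mulVec_nonneg _) (hY.dotProduct_mulVec_nonneg _)
  constructor
  · have e : fromBlocks A 0 0 B - (a0 : ℂ) • (1 : Matrix (ι ⊕ κ) (ι ⊕ κ) ℂ) =
        fromBlocks (A - (a0 : ℂ) • 1) 0 0 (B - (a0 : ℂ) • 1) := by
      rw [← fromBlocks_one, fromBlocks_smul, sub_eq_add_neg, fromBlocks_neg, fromBlocks_add]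
      simp [sub_eq_add_neg]
    rw [e]
    exact key hA.1 hB.1
  · have e : (a1 : ℂ) • (1 : Matrix (ι ⊕ κ) (ι ⊕ κ) ℂ) - fromBlocks A 0 0 B =
        fromBlocks ((a1 : ℂ) • 1 - A) 0 0 ((a1 : ℂ) • 1 - B) := by
      rw [← fromBlocks_one, fromBlocks_smul, sub_eq_add_neg, fromBlocks_neg, fromBlocks_add]
      simp [sub_eq_add_neg]
    rw [e]
    exact key hA.2 hB.2

open Pool.Agent.Lib_helper33.Renyi in
lemma resb_form {a0 a1 : ℝ} (A : Matrix ι ι ℂ) (hA : A.PosDef) (hb : resbBd a0 a1 A)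
    (v : ι → ℂ) : ResFormB a0 a1 (fun s => (form A v v s).re) := by
  obtain ⟨U, a, h, h', ha, hAU⟩ := exists_diag_pos hA
  have hb' : resbBd a0 a1 (dg a) := by
    have h1 := resb_conj hb h
    have e : Uᴴ * A * U = dg a := by
      rw [hAU]
      calc Uᴴ * (U * dg a * Uᴴ) * U = (Uᴴ * U) * dg a * (Uᴴ * U) := by
            simp only [Matrix.mul_assoc]
        _ = _ := by rw [h, Matrix.one_mul, Matrix.mul_one]
    rw [e] at h1
    exact h1
  refine ⟨Fintype.card ι, fun k => a ((Fintype.equivFin ι).symm k),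
    fun k => Complex.normSq ((Uᴴ *ᵥ v) ((Fintype.equivFin ι).symm k)),
    fun i => resb_dg.mp hb' _, fun i => Complex.normSq_nonneg _, ?_⟩
  intro s hs
  have hpos : ∀ i, 0 < a i + s := fun i => by have := ha i; linarith
  beta_reduce
  rw [form_diag h h' hAU v v hpos, gbe_self, Complex.ofReal_re]
  unfold gal
  rw [← Equiv.sum_comp (Fintype.equivFin ι).symm]
  refine Finset.sum_congr rfl fun k _ => ?_
  rw [mul_one, add_comm s]

/-- the compression lemma with bounds -/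
lemma resb_compress (M : Matrix ι ι ℂ) (hM : M.PosDef) (ξ z : ι → ℂ) (hz : z ≠ 0) {a0 a1 : ℝ}
    (hb : resbBd a0 a1 M) :
    ∃ (κ' : Type) (_ : Fintype κ') (_ : DecidableEq κ') (M' : Matrix κ' κ' ℂ) (ξ' : κ' → ℂ),
      M'.PosDef ∧ resbBd a0 a1 M' ∧ ∀ s : ℝ, 0 ≤ s →
        (form M ξ ξ s).re - ‖form M ξ z s‖ ^ 2 / (form M z z s).re = (form M' ξ' ξ' s).re := by
  obtain ⟨κ', i1, i2, Q, hQ, hQQ⟩ := exists_Q hz
  have hN0 := star_dot_self_ne hz
  have hQz : Qᴴ *ᵥ z = 0 := by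
    have h1 : (Q * Qᴴ) *ᵥ z = 0 := by
      have h2 : ((star z ⬝ᵥ z) • (Q * Qᴴ)) *ᵥ z = 0 := by
        rw [hQQ, sub_mulVec, smul_mulVec, one_mulVec]
        ext i
        simp only [Pi.sub_apply, Pi.smul_apply, Pi.zero_apply, smul_eq_mul, mulVec, dotProduct,
          vecMulVec_apply, Pi.star_apply]
        rw [Finset.sum_mul, ← Finset.sum_sub_distrib]
        refine Finset.sum_eq_zero fun j _ => by ring
      rw [smul_mulVec] at h2
      exact (smul_eq_zero.mp h2).resolve_left hN0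
    have h3 : star (Qᴴ *ᵥ z) ⬝ᵥ (Qᴴ *ᵥ z) = 0 := by
      rw [star_mulVec, conjTranspose_conjTranspose, ← dotProduct_mulVec, mulVec_mulVec, h1,
        dotProduct_zero]
    exact dotProduct_star_self_eq_zero.mp h3
  have hQinj : Function.Injective Q.mulVec := by
    intro x y hxy
    have : Qᴴ *ᵥ (Q *ᵥ x) = Qᴴ *ᵥ (Q *ᵥ y) := by rw [show Q *ᵥ x = Q *ᵥ y from hxy]
    rw [mulVec_mulVec, mulVec_mulVec, hQ, one_mulVec, one_mulVec] at this
    exact this
  refine ⟨κ', i1, i2, Qᴴ * M * Q, Qᴴ *ᵥ ξ, hM.conjTranspose_mul_mul_same hQinj,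
    resb_conj hb hQ, ?_⟩
  intro s hs
  obtain ⟨r1, r2⟩ := res_mul hM hs
  have hzz := (form_facts M hM z z s hs)
  obtain ⟨U, a, h, h', ha, hAU⟩ := exists_diag_pos hM
  have hpos : ∀ i, 0 < a i + s := fun i => by have := ha i; linarith
  have hzpos := form_self_pos h h' hAU hz hpos
  have hzself : form M z z s = ((form M z z s).re : ℂ) :=
    Complex.ext (by simp) (by simp [hzz.2.1])
  have hz0 : form M z z s ≠ 0 := by
    rw [hzself]; exact_mod_cast hzpos.ne'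
  set R := Res M s with hR
  set N : Matrix ι ι ℂ := R - (form M z z s)⁻¹ • (vecMulVec (R *ᵥ z) (star z ᵥ* R)) with hN
  have hNz : N *ᵥ z = 0 := by
    rw [hN, sub_mulVec, smul_mulVec]
    have : vecMulVec (R *ᵥ z) (star z ᵥ* R) *ᵥ z = (form M z z s) • (R *ᵥ z) := by
      rw [vecMulVec_mulVec, form, ← hR, dotProduct_mulVec]
      ext i
      simp [mul_comm]
    rw [this, smul_smul, inv_mul_cancel₀ hz0, one_smul, sub_self]
  have hzN : star z ᵥ* N = 0 := by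
    rw [hN, vecMul_sub, vecMul_smul]
    have : star z ᵥ* vecMulVec (R *ᵥ z) (star z ᵥ* R) = (form M z z s) • (star z ᵥ* R) := by
      rw [vecMul_vecMulVec, form, ← hR]
    rw [this, smul_smul, inv_mul_cancel₀ hz0, one_smul, sub_self]
  have hPN : (Q * Qᴴ) * N = N := by
    have h1 : ((star z ⬝ᵥ z) • (Q * Qᴴ)) * N = (star z ⬝ᵥ z) • N := by
      rw [hQQ, Matrix.sub_mul, Matrix.smul_mul, Matrix.one_mul, vecMulVec_mul, hzN]
      have : vecMulVec z (0 : ι → ℂ) = 0 := by ext; simp [vecMulVec_apply]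
      rw [this, sub_zero]
    rw [Matrix.smul_mul] at h1
    exact smul_right_injective _ hN0 h1
  have hNP : N * (Q * Qᴴ) = N := by
    have h1 : N * ((star z ⬝ᵥ z) • (Q * Qᴴ)) = (star z ⬝ᵥ z) • N := by
      rw [hQQ, Matrix.mul_sub, Matrix.mul_smul, Matrix.mul_one, mul_vecMulVec, hNz]
      have : vecMulVec (0 : ι → ℂ) (star z) = 0 := by ext; simp [vecMulVec_apply]
      rw [this, sub_zero]
    rw [Matrix.mul_smul] at h1
    exact smul_right_injective _ hN0 h1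
  have hMN : (M + (s : ℂ) • (1 : Matrix ι ι ℂ)) * N =
      1 - (form M z z s)⁻¹ • vecMulVec z (star z ᵥ* R) := by
    rw [hN, Matrix.mul_sub, r1, Matrix.mul_smul, mul_vecMulVec, mulVec_mulVec, r1, one_mulVec]
  have hinv : Res (Qᴴ * M * Q) s = Qᴴ * N * Q := by
    unfold Res
    refine inv_eq_right_inv ?_
    have e1 : Qᴴ * M * Q + (s : ℂ) • (1 : Matrix κ' κ' ℂ) =
        Qᴴ * (M + (s : ℂ) • (1 : Matrix ι ι ℂ)) * Q := by
      rw [Matrix.mul_add, Matrix.add_mul, Matrix.mul_smul, Matrix.smul_mul, Matrix.mul_one, hQ]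
    rw [e1]
    calc Qᴴ * (M + (s : ℂ) • (1 : Matrix ι ι ℂ)) * Q * (Qᴴ * N * Q)
        = Qᴴ * ((M + (s : ℂ) • (1 : Matrix ι ι ℂ)) * ((Q * Qᴴ) * N)) * Q := by
          simp only [Matrix.mul_assoc]
      _ = Qᴴ * (1 - (form M z z s)⁻¹ • vecMulVec z (star z ᵥ* R)) * Q := by rw [hPN, hMN]
      _ = 1 := by
          rw [Matrix.mul_sub, Matrix.sub_mul, Matrix.mul_one, hQ, Matrix.mul_smul, mul_vecMulVec,
            hQz]
          have : vecMulVec (0 : κ' → ℂ) (star z ᵥ* R) = 0 := by ext; simp [vecMulVec_apply]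
          rw [this, smul_zero, Matrix.zero_mul, sub_zero]
  have hform : form (Qᴴ * M * Q) (Qᴴ *ᵥ ξ) (Qᴴ *ᵥ ξ) s =
      form M ξ ξ s - form M ξ z s * form M z ξ s / form M z z s := by
    unfold form
    rw [hinv, mulVec_mulVec, star_mulVec, conjTranspose_conjTranspose, ← dotProduct_mulVec,
      mulVec_mulVec, show Q * (Qᴴ * N * Q * Qᴴ) = (Q * Qᴴ) * (N * (Q * Qᴴ)) by
        simp only [Matrix.mul_assoc], hNP, hPN, hN, sub_mulVec, smul_mulVec, dotProduct_sub,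
      dotProduct_smul, vecMulVec_mulVec]
    unfold form
    rw [← hR]
    congr 1
    have : star ξ ⬝ᵥ (MulOpposite.op (star z ᵥ* R ⬝ᵥ ξ) • R *ᵥ z) =
        (star ξ ⬝ᵥ (R *ᵥ z)) * (star z ⬝ᵥ (R *ᵥ ξ)) := by
      rw [dotProduct_smul, dotProduct_mulVec (star z) R ξ]
      rfl
    rw [this, smul_eq_mul]
    field_simp
  rw [hform]
  obtain ⟨-, -, hst, -, -⟩ := form_facts M hM ξ z s hs
  rw [hst]
  have e3 : form M ξ z s * star (form M ξ z s) = ((‖form M ξ z s‖ ^ 2 : ℝ) : ℂ) := by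
    rw [Complex.star_def, Complex.mul_conj, Complex.normSq_eq_norm_sq]
  rw [e3, Complex.sub_re]
  congr 1
  conv_rhs => rw [hzself]
  rw [← Complex.ofReal_div, Complex.ofReal_re]

/-- one step of the iteration preserves Stieltjes sums with poles in `[a0, a1]` -/
lemma resb_step {a0 a1 : ℝ} (ha0 : 0 < a0) (A : Matrix ι ι ℂ) (hA : A.PosDef)
    (hb : resbBd a0 a1 A) (v w : ι → ℂ) (hw : w ≠ 0) (l : ℝ → ℝ) (hl : ResFormB a0 a1 l) :
    ResFormB a0 a1 (fun s => (form A v v s).re -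
      ‖form A v w s‖ ^ 2 / ((form A w w s).re + l s)) := by
  obtain ⟨K, c, u, hc', hu, hlu⟩ := hl
  have hc : ∀ i, 0 < c i := fun i => lt_of_lt_of_le ha0 (hc' i).1
  set M := fromBlocks A 0 0 (dg c) with hM
  have hMp : M.PosDef := posDef_fromBlocks hA (posDef_dg hc)
  have hMb : resbBd a0 a1 M := resb_fromBlocks hb (resb_dg.mpr hc')
  set z : ι ⊕ Fin K → ℂ := Sum.elim w (fun i => ((Real.sqrt (u i) : ℝ) : ℂ)) with hz
  set ξ : ι ⊕ Fin K → ℂ := Sum.elim v 0 with hξ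
  have hz0 : z ≠ 0 := by
    intro h0
    apply hw
    ext i
    have := congrFun h0 (Sum.inl i)
    simpa [hz] using this
  obtain ⟨κ', i1, i2, M', ξ', hM', hMb', hform⟩ := resb_compress M hMp ξ z hz0 hMb
  obtain ⟨K', c', u', hc'', hu', hf⟩ := resb_form M' hM' hMb' ξ'
  refine ⟨K', c', u', hc'', hu', ?_⟩
  intro s hs
  rw [← hf s hs]
  beta_reduce
  rw [← hform s hs]
  have e1 : form M ξ ξ s = form A v v s := by
    rw [hM, hξ, form_fromBlocks A _ hA (posDef_dg hc) _ _ _ _ hs, form_dg hc _ _ hs]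
    simp
  have e2 : form M ξ z s = form A v w s := by
    rw [hM, hξ, hz, form_fromBlocks A _ hA (posDef_dg hc) _ _ _ _ hs, form_dg hc _ _ hs]
    simp
  have e3 : (form M z z s).re = (form A w w s).re + l s := by
    rw [hM, hz, form_fromBlocks A _ hA (posDef_dg hc) _ _ _ _ hs, form_dg hc _ _ hs,
      Complex.add_re, hlu s hs, Complex.re_sum]
    congr 1
    refine Finset.sum_congr rfl fun i _ => ?_
    rw [show star ((Real.sqrt (u i) : ℝ) : ℂ) = ((Real.sqrt (u i) : ℝ) : ℂ) from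
      Complex.conj_ofReal _, ← Complex.ofReal_mul, Real.mul_self_sqrt (hu i),
      ← Complex.ofReal_div, Complex.ofReal_re]
  rw [e1, e2, e3]

/-- `phi` in terms of a diagonal `form` -/
lemma resb_phi {R : Matrix κ κ ℂ} {U : Matrix κ κ ℂ} {ρ : κ → ℝ} (h : Uᴴ * U = 1)
    (h' : U * Uᴴ = 1) (hρ : ∀ i, 0 < ρ i) (hR : R = U * dg ρ * Uᴴ) (v w : κ → ℂ) {x : ℝ}
    (hx : 0 ≤ x) :
    phi R v w x = form (dg fun i => (ρ i)⁻¹)
      (dg (fun i => Real.sqrt ((ρ i)⁻¹)) *ᵥ (Uᴴ *ᵥ v))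
      (dg (fun i => Real.sqrt ((ρ i)⁻¹)) *ᵥ (Uᴴ *ᵥ w)) x := by
  have hp : ∀ i, 0 < 1 + x * ρ i := fun i => by have := hρ i; positivity
  have hq : ∀ i, 0 < (ρ i)⁻¹ + x := fun i => by have := hρ i; positivity
  have e1 : ((1 : Matrix κ κ ℂ) + (x : ℂ) • R)⁻¹ = U * dg (fun i => (1 + x * ρ i)⁻¹) * Uᴴ := by
    refine inv_eq_right_inv ?_
    have e2 : (1 : Matrix κ κ ℂ) + (x : ℂ) • R = U * dg (fun i => 1 + x * ρ i) * Uᴴ := by
      rw [hR]
      have e3 : dg (fun i => 1 + x * ρ i) = (1 : Matrix κ κ ℂ) + (x : ℂ) • dg ρ := by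
        unfold dg
        rw [← diagonal_one, ← diagonal_smul, diagonal_add]
        congr 1
        ext i
        simp
      rw [e3, Matrix.mul_add, Matrix.add_mul, Matrix.mul_one, h', Matrix.mul_smul,
        Matrix.smul_mul]
    rw [e2]
    calc U * dg (fun i => 1 + x * ρ i) * Uᴴ * (U * dg (fun i => (1 + x * ρ i)⁻¹) * Uᴴ)
        = U * dg (fun i => 1 + x * ρ i) * (Uᴴ * U) * dg (fun i => (1 + x * ρ i)⁻¹) * Uᴴ := by
          simp only [Matrix.mul_assoc]
      _ = U * (dg (fun i => 1 + x * ρ i) * dg (fun i => (1 + x * ρ i)⁻¹)) * Uᴴ := by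
          rw [h, Matrix.mul_one]; simp only [Matrix.mul_assoc]
      _ = 1 := by
          unfold dg
          rw [diagonal_mul_diagonal]
          have e4 : (fun i => ((1 + x * ρ i : ℝ) : ℂ) * (((1 + x * ρ i)⁻¹ : ℝ) : ℂ)) =
              fun _ => (1 : ℂ) := by
            ext i
            rw [← Complex.ofReal_mul, mul_inv_cancel₀ (hp i).ne', Complex.ofReal_one]
          rw [e4, diagonal_one, Matrix.mul_one, h']
  unfold phi form
  rw [e1, Res_dg hq, ← mulVec_mulVec, ← mulVec_mulVec, dotProduct_mulVec]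
  have e : star v ᵥ* U = star (Uᴴ *ᵥ v) := by
    rw [star_mulVec, conjTranspose_conjTranspose]
  rw [e]
  unfold dotProduct dg
  refine Finset.sum_congr rfl fun i _ => ?_
  simp only [mulVec_diagonal, Pi.star_apply, star_mul', Complex.star_def, Complex.conj_ofReal]
  have e5 : ((1 + x * ρ i)⁻¹ : ℝ) =
      Real.sqrt ((ρ i)⁻¹) * (((ρ i)⁻¹ + x)⁻¹ * Real.sqrt ((ρ i)⁻¹)) := by
    have e6 : Real.sqrt ((ρ i)⁻¹) * (((ρ i)⁻¹ + x)⁻¹ * Real.sqrt ((ρ i)⁻¹)) =
        (Real.sqrt ((ρ i)⁻¹) * Real.sqrt ((ρ i)⁻¹)) * ((ρ i)⁻¹ + x)⁻¹ := by ring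
    rw [e6, Real.mul_self_sqrt (by have := hρ i; positivity), ← mul_inv]
    congr 1
    rw [mul_add, mul_inv_cancel₀ (hρ i).ne']
    ring
  rw [e5]
  push_cast
  ring

theorem lp_seq (R : Matrix κ κ ℂ) (hR : R.PosDef) (v w : κ → ℂ)
    (h : LinearIndependent ℂ ![v, w]) :
    ∃ (a0 a1 c : ℝ) (L : ℕ → ℝ → ℝ), 0 < a0 ∧ a0 ≤ a1 ∧ 0 < c ∧
      (∀ j, ResFormB a0 a1 (L j)) ∧ (∀ j, c ≤ L j 0) ∧
      ∀ s, 0 ≤ s → 0 < lp R v w s ∧ Tendsto (fun j => L j s) atTop (𝓝 (lp R v w s)) := by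
  obtain ⟨U, ρ, hU, hU', hρ, hRU⟩ := exists_diag_pos hR
  have hne : Nonempty κ := by
    by_contra hne
    rw [not_nonempty_iff] at hne
    have h1 := h.ne_zero 0
    exact h1 (Subsingleton.elim _ _)
  set a : κ → ℝ := fun i => (ρ i)⁻¹ with ha
  have hapos : ∀ i, 0 < a i := fun i => inv_pos.mpr (hρ i)
  have hsum : 0 < ∑ i, ρ i := Finset.sum_pos (fun i _ => hρ i) Finset.univ_nonempty
  set T : Matrix κ κ ℂ := dg (fun i => Real.sqrt ((ρ i)⁻¹)) * Uᴴ with hT
  set v' : κ → ℂ := dg (fun i => Real.sqrt ((ρ i)⁻¹)) *ᵥ (Uᴴ *ᵥ v) with hv'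
  set w' : κ → ℂ := dg (fun i => Real.sqrt ((ρ i)⁻¹)) *ᵥ (Uᴴ *ᵥ w) with hw'
  have hTinj : Function.Injective T.mulVec := by
    have hi : (U * dg (fun i => (Real.sqrt ((ρ i)⁻¹))⁻¹)) * T = 1 := by
      rw [hT]
      calc U * dg (fun i => (Real.sqrt ((ρ i)⁻¹))⁻¹) * (dg (fun i => Real.sqrt ((ρ i)⁻¹)) * Uᴴ)
          = U * (dg (fun i => (Real.sqrt ((ρ i)⁻¹))⁻¹) * dg (fun i => Real.sqrt ((ρ i)⁻¹))) * Uᴴ := by
            simp only [Matrix.mul_assoc]
        _ = 1 := by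
            unfold dg
            rw [diagonal_mul_diagonal]
            have e4 : (fun i => (((Real.sqrt ((ρ i)⁻¹))⁻¹ : ℝ) : ℂ) *
                ((Real.sqrt ((ρ i)⁻¹) : ℝ) : ℂ)) = fun _ => (1 : ℂ) := by
              ext i
              rw [← Complex.ofReal_mul, inv_mul_cancel₀, Complex.ofReal_one]
              exact (Real.sqrt_pos.mpr (inv_pos.mpr (hρ i))).ne'
            rw [e4, diagonal_one, Matrix.mul_one, hU']
    intro x y hxy
    have : (U * dg (fun i => (Real.sqrt ((ρ i)⁻¹))⁻¹)) *ᵥ (T *ᵥ x) =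
        (U * dg (fun i => (Real.sqrt ((ρ i)⁻¹))⁻¹)) *ᵥ (T *ᵥ y) := by
      rw [show T *ᵥ x = T *ᵥ y from hxy]
    rw [mulVec_mulVec, mulVec_mulVec, hi, one_mulVec, one_mulVec] at this
    exact this
  have hli : LinearIndependent ℂ ![v', w'] := by
    have h1 := h.map' T.mulVecLin (LinearMap.ker_eq_bot.mpr hTinj)
    have e : (T.mulVecLin ∘ ![v, w]) = ![v', w'] := by
      ext k
      fin_cases k
      · simp [hv', hT, mulVec_mulVec]
      · simp [hw', hT, mulVec_mulVec]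
    rw [e] at h1
    exact h1
  have hA : (dg a).PosDef := by
    unfold dg
    rw [posDef_diagonal_iff]
    intro i
    exact_mod_cast hapos i
  have hb : resbBd (∑ i, ρ i)⁻¹ (∑ i, a i) (dg a) := by
    rw [resb_dg]
    intro i
    refine ⟨?_, ?_⟩
    · exact inv_anti₀ (hρ i) (Finset.single_le_sum (f := ρ) (fun j _ => (hρ j).le) (Finset.mem_univ i))
    · exact Finset.single_le_sum (f := a) (fun j _ => (hapos j).le) (Finset.mem_univ i)
  have hw0 : w' ≠ 0 := by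
    have := hli.ne_zero 1
    simpa using this
  have ha0 : 0 < (∑ i, ρ i)⁻¹ := inv_pos.mpr hsum
  set al := fun s : ℝ => (form (dg a) v' v' s).re with hal
  set ga := fun s : ℝ => (form (dg a) w' w' s).re with hga
  set nb := fun s : ℝ => ‖form (dg a) v' w' s‖ ^ 2 with hnb
  have hfacts : ∀ s, 0 ≤ s → 0 < al s ∧ 0 < ga s ∧ nb s < al s * ga s := by
    intro s hs
    obtain ⟨-, -, -, -, hst⟩ := form_facts (dg a) hA v' w' s hs
    exact hst hli
  have hlp : ∀ s, 0 ≤ s → lp R v w s = lam (form (dg a) v' v' s).re (form (dg a) w' w' s).re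
      (form (dg a) v' w' s) := by
    intro s hs
    unfold lp
    rw [resb_phi hU hU' hρ hRU v v hs, resb_phi hU hU' hρ hRU w w hs,
      resb_phi hU hU' hρ hRU v w hs]
  have hform : ∀ j, ResFormB (∑ i, ρ i)⁻¹ (∑ i, a i) (fun s => itr (al s) (ga s) (nb s) j) := by
    intro j
    induction j with
    | zero =>
      exact ⟨0, Fin.elim0, Fin.elim0, fun i => i.elim0, fun i => i.elim0,
        fun s _ => by simp [itr]⟩
    | succ j ih => exact resb_step ha0 (dg a) hA hb v' w' hw0 _ ih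
  obtain ⟨f1, f2, f3⟩ := hfacts 0 le_rfl
  refine ⟨(∑ i, ρ i)⁻¹, ∑ i, a i, al 0 - nb 0 / ga 0, fun j s => itr (al s) (ga s) (nb s) (j + 1),
    ha0, ?_, ?_, fun j => hform (j + 1), ?_, ?_⟩
  · obtain ⟨i⟩ := hne
    exact ((resb_dg.mp hb i).1).trans (resb_dg.mp hb i).2
  · rw [sub_pos, div_lt_iff₀ f2]
    exact f3
  · intro j
    have hmono : Monotone (itr (al 0) (ga 0) (nb 0)) := monotone_nat_of_le_succ fun j =>
      ((itr_facts f1 f2 (by rw [hnb]; positivity) f3).1 j).2.1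
    have h1 : itr (al 0) (ga 0) (nb 0) 1 ≤ itr (al 0) (ga 0) (nb 0) (j + 1) :=
      hmono (by omega)
    have h2 : itr (al 0) (ga 0) (nb 0) 1 = al 0 - nb 0 / (ga 0 + 0) := rfl
    rw [h2, add_zero] at h1
    exact h1
  · intro s hs
    obtain ⟨g1, g2, g3⟩ := hfacts s hs
    rw [hlp s hs, lam_eq, Complex.normSq_eq_norm_sq]
    have hlim := (itr_facts g1 g2 (by rw [hnb]; positivity) g3).2
    have hstep := (itr_facts g1 g2 (by rw [hnb]; positivity) g3).1 1
    refine ⟨?_, hlim.comp (tendsto_add_atTop_nat 1)⟩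
    have h2 : itr (al s) (ga s) (nb s) 1 = al s - nb s / (ga s + 0) := rfl
    rw [add_zero] at h2
    have h3 : 0 < al s - nb s / ga s := by
      rw [sub_pos, div_lt_iff₀ g2]
      exact g3
    rw [← h2] at h3
    exact h3.trans_le hstep.2.2

end Pool.Agent.LDK
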